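import Pool.Agent.Helper1.Stab.PR
import Pool.Agent.Helper82.Stab.GenAux

/-! Extensions by zero of projections along different embeddings, and the colimit over the dimension
of the ambient space. -/

open Topology Filter Set Matrix

noncomputable section

namespace Pool.Agent.Helper77.Stab

open Pool.Agent.Helper1.Stab
open Pool.Agent.Helper82.Stab (ext_apply ext_left ext_right pr_ext_iff ext_refl)

variable {S T U : Type} [Fintype S] [Fintype T] [Fintype U] {n : ℕ}

theorem ext_trans (i : S ↪ T) (j : T ↪ U) (P : Pr S n) :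
    Pr.ext (i.trans j) P = Pr.ext j (Pr.ext i P) := by
  refine pr_ext_iff fun x y => ?_
  by_cases hx : ∃ t, j t = x
  · by_cases hy : ∃ t, j t = y
    · obtain ⟨x, rfl⟩ := hx
      obtain ⟨y, rfl⟩ := hy
      rw [ext_apply]
      by_cases hx' : ∃ s, i s = x
      · by_cases hy' : ∃ s, i s = y
        · obtain ⟨x, rfl⟩ := hx'
          obtain ⟨y, rfl⟩ := hy'
          rw [ext_apply]
          exact ext_apply (i.trans j) P x y
        · rw [ext_right i P x (not_exists.1 hy')]
          exact ext_right (i.trans j) P _ fun s h => hy' ⟨s, j.injective h⟩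
      · rw [ext_left i P (not_exists.1 hx') y]
        exact ext_left (i.trans j) P (fun s h => hx' ⟨s, j.injective h⟩) _
    · rw [ext_right j _ x (not_exists.1 hy)]
      exact ext_right (i.trans j) P _ fun s h => hy ⟨i s, h⟩
  · rw [ext_left j _ (not_exists.1 hx) y]
    exact ext_left (i.trans j) P (fun s h => hx ⟨i s, h⟩) _

theorem extM_trans (i : S ↪ T) (j : T ↪ U) (n : ℕ) :
    Pr.extM (i.trans j) n = (Pr.extM j n).comp (Pr.extM i n) := by
  refine PMap.ext fun P => ?_
  change ((Pr.ext (i.trans j) P : LC.Pr U n) : OnePoint (LC.Pr U n)) =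
    ((Pr.ext j (Pr.ext i P) : LC.Pr U n) : OnePoint (LC.Pr U n))
  rw [ext_trans]

theorem extM_refl (S : Type) [Fintype S] (n : ℕ) :
    Pr.extM (Function.Embedding.refl S) n = PMap.id (LC.Pr S n) := by
  refine PMap.ext fun P => ?_
  change ((Pr.ext (Function.Embedding.refl S) P : LC.Pr S n) : OnePoint (LC.Pr S n)) =
    ((P : LC.Pr S n) : OnePoint (LC.Pr S n))
  rw [ext_refl]

/-! ## The matrix of an embedding -/

open Classical in
/-- the matrix of an embedding -/
def EM (i : S ↪ T) : Matrix T S ℂ := fun t s => if t = i s then 1 else 0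

theorem EM_mul_apply (i : S ↪ T) {A : Type} (M : Matrix S A ℂ) (s : S) (a : A) :
    (EM i * M) (i s) a = M s a := by
  rw [Matrix.mul_apply, Finset.sum_eq_single s]
  · simp [EM]
  · intro b _ hb
    have : ¬ i s = i b := fun h => hb (i.injective h).symm
    simp [EM, this]
  · intro h
    exact absurd (Finset.mem_univ _) h

theorem EM_mul_of_notMem (i : S ↪ T) {A : Type} (M : Matrix S A ℂ) {t : T} (ht : ∀ s, i s ≠ t)
    (a : A) : (EM i * M) t a = 0 := by
  rw [Matrix.mul_apply]
  refine Finset.sum_eq_zero fun s _ => ?_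
  have : ¬ t = i s := fun h => ht s h.symm
  simp [EM, this]

theorem mul_EM_apply (i : S ↪ T) {A : Type} (M : Matrix A S ℂ) (s : S) (a : A) :
    (M * (EM i)ᴴ) a (i s) = M a s := by
  rw [Matrix.mul_apply, Finset.sum_eq_single s]
  · simp [EM, Matrix.conjTranspose_apply]
  · intro b _ hb
    have : ¬ i s = i b := fun h => hb (i.injective h).symm
    simp [EM, Matrix.conjTranspose_apply, this]
  · intro h
    exact absurd (Finset.mem_univ _) h

theorem mul_EM_of_notMem (i : S ↪ T) {A : Type} (M : Matrix A S ℂ) {t : T} (ht : ∀ s, i s ≠ t)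
    (a : A) : (M * (EM i)ᴴ) a t = 0 := by
  rw [Matrix.mul_apply]
  refine Finset.sum_eq_zero fun s _ => ?_
  have : ¬ t = i s := fun h => ht s h.symm
  simp [EM, Matrix.conjTranspose_apply, this]

open Classical in
theorem EM_iso (i : S ↪ T) : (EM i)ᴴ * EM i = 1 := by
  ext s s'
  rw [Matrix.mul_apply, Finset.sum_eq_single (i s)]
  · by_cases h : s = s'
    · subst h
      simp [EM, Matrix.conjTranspose_apply]
    · have : ¬ i s = i s' := fun h' => h (i.injective h')
      simp [EM, Matrix.conjTranspose_apply, h]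
  · intro b _ hb
    simp [EM, Matrix.conjTranspose_apply, hb]
  · intro h
    exact absurd (Finset.mem_univ _) h

theorem ext_eq (i : S ↪ T) (P : Pr S n) : (Pr.ext i P).1 = EM i * P.1 * (EM i)ᴴ := by
  ext x y
  by_cases hy : ∃ s, i s = y
  · obtain ⟨y, rfl⟩ := hy
    rw [mul_EM_apply]
    by_cases hx : ∃ s, i s = x
    · obtain ⟨x, rfl⟩ := hx
      rw [EM_mul_apply, ext_apply]
    · rw [EM_mul_of_notMem i _ (not_exists.1 hx), ext_left i P (not_exists.1 hx)]
  · rw [mul_EM_of_notMem i _ (not_exists.1 hy), ext_right i P _ (not_exists.1 hy)]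

theorem uequiv_ext (i j : S ↪ T) (n : ℕ) :
    UEquiv (X := Pr S n) (fun P => Pr.ext i P) (fun P => Pr.ext j P) := by
  classical
  refine ⟨fun P => EM j * P.1 * (EM i)ᴴ, ?_, ?_, ?_⟩
  · exact (continuous_const.matrix_mul continuous_subtype_val).matrix_mul continuous_const
  · intro P
    rw [ext_eq, Matrix.conjTranspose_mul, Matrix.conjTranspose_mul, Matrix.conjTranspose_conjTranspose,
      P.2.1]
    calc EM i * (P.1 * (EM j)ᴴ) * (EM j * P.1 * (EM i)ᴴ)
        = EM i * (P.1 * (((EM j)ᴴ * EM j) * P.1)) * (EM i)ᴴ := by simp only [Matrix.mul_assoc]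
      _ = EM i * P.1 * (EM i)ᴴ := by rw [EM_iso, Matrix.one_mul, P.2.2.1]
  · intro P
    rw [ext_eq, Matrix.conjTranspose_mul, Matrix.conjTranspose_mul, Matrix.conjTranspose_conjTranspose,
      P.2.1]
    calc EM j * P.1 * (EM i)ᴴ * (EM i * (P.1 * (EM j)ᴴ))
        = EM j * (P.1 * (((EM i)ᴴ * EM i) * P.1)) * (EM j)ᴴ := by simp only [Matrix.mul_assoc]
      _ = EM j * P.1 * (EM j)ᴴ := by rw [EM_iso, Matrix.one_mul, P.2.2.1]

/-- the inclusion of the first summand -/
abbrev il (S T : Type) : S ↪ S ⊕ T := ⟨Sum.inl, Sum.inl_injective⟩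

/-- the inclusion of the second summand -/
abbrev ir (S T : Type) : T ↪ S ⊕ T := ⟨Sum.inr, Sum.inr_injective⟩

theorem ext_hom1 (i j : S ↪ T) (n : ℕ) :
    (Pr.extM (i.trans (il T T)) n).Homotopic (Pr.extM (j.trans (ir T T)) n) := by
  obtain ⟨H, hH, h0, h1⟩ := (uequiv_ext i j n).homotopic
  refine ⟨PMap.ofCont (K := LC.I.prod (LC.Pr S n)) (L := LC.Pr (T ⊕ T) n) H hH,
    fun P => ?_, fun P => ?_⟩
  · refine congrArg (fun z : LC.Pr (T ⊕ T) n => (z : OnePoint (LC.Pr (T ⊕ T) n))) ?_
    exact (h0 P).trans (ext_trans i (il T T) P).symm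
  · refine congrArg (fun z : LC.Pr (T ⊕ T) n => (z : OnePoint (LC.Pr (T ⊕ T) n))) ?_
    exact (h1 P).trans (ext_trans j (ir T T) P).symm

/-- Two embeddings give homotopic maps after adding as many coordinates again. -/
theorem ext_homotopic (i j : S ↪ T) (n : ℕ) :
    (Pr.extM (i.trans (il T T)) n).Homotopic (Pr.extM (j.trans (il T T)) n) :=
  (ext_hom1 i j n).trans (ext_hom1 j j n).symm

/-! ## The colimit -/

variable (R : Biv) (K Z : LC)

/-- the map of the stages -/
def push (j : S ↪ T) (n : ℕ) :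
    R.Hom K ((LC.Pr S n).prod Z) →+ R.Hom K ((LC.Pr T n).prod Z) :=
  AddMonoidHom.mk' (fun x => R.comp x (R.tens (R.J (Pr.extM j n)) Z)) fun x y => R.add_comp x y _

theorem push_apply (j : S ↪ T) (x : R.Hom K ((LC.Pr S n).prod Z)) :
    push R K Z j n x = R.comp x (R.tens (R.J (Pr.extM j n)) Z) := rfl

theorem push_refl (x : R.Hom K ((LC.Pr S n).prod Z)) :
    push R K Z (Function.Embedding.refl S) n x = x := by
  rw [push_apply, extM_refl, Helper39.Stab.tens_id, R.comp_id]

theorem push_push (i : S ↪ T) (j : T ↪ U) (x : R.Hom K ((LC.Pr S n).prod Z)) :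
    push R K Z j n (push R K Z i n x) = push R K Z (i.trans j) n x := by
  rw [push_apply, push_apply, push_apply, extM_trans, R.J_comp, R.tens_comp, R.assoc]

theorem push_il (i j : S ↪ T) (x : R.Hom K ((LC.Pr S n).prod Z)) :
    push R K Z (i.trans (il T T)) n x = push R K Z (j.trans (il T T)) n x := by
  rw [push_apply, push_apply, R.J_homotopic (ext_homotopic i j n)]

/-- the stages -/
abbrev G (n N : ℕ) : Type := R.Hom K ((LC.Pr (Fin N) n).prod Z)

/-- the maps of the stages -/
def f (n N M : ℕ) (h : N ≤ M) : G R K Z n N →+ G R K Z n M := push R K Z (Fin.castLEEmb h) n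

instance (n : ℕ) : DirectedSystem (G R K Z n) (fun i j h => f R K Z n i j h) where
  map_self := by
    intro i x
    exact push_refl R K Z x
  map_map := by
    intro i j k hij hjk x
    exact push_push R K Z _ _ x

/-- the colimit -/
abbrev Lim (n : ℕ) : Type := AddCommGroup.DirectLimit (G R K Z n) (f R K Z n)

/-- the class in the colimit of an element of a stage -/
def co (n N : ℕ) : G R K Z n N →+ Lim R K Z n := AddCommGroup.DirectLimit.of (G R K Z n) (f R K Z n) N

theorem co_castLE {N M : ℕ} (h : N ≤ M) (x : G R K Z n N) :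
    co R K Z n M (push R K Z (Fin.castLEEmb h) n x) = co R K Z n N x :=
  AddCommGroup.DirectLimit.of_f (G := G R K Z n) (f := f R K Z n) h x

/-- two embeddings in the same stage -/
theorem co_same {N : ℕ} (a b : S ↪ Fin N) (x : R.Hom K ((LC.Pr S n).prod Z)) :
    co R K Z n N (push R K Z a n x) = co R K Z n N (push R K Z b n x) := by
  have h1 : ∀ a : S ↪ Fin N, co R K Z n N (push R K Z a n x) =
      co R K Z n (N + N) (push R K Z (finSumFinEquiv (m := N) (n := N)).toEmbedding n
        (push R K Z (a.trans (il (Fin N) (Fin N))) n x)) := by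
    intro a
    rw [← co_castLE R K Z (Nat.le_add_right N N), push_push, push_push]
    congr 3
  rw [h1 a, h1 b, push_il]

/-- the class does not depend on the embedding -/
theorem co_indep {N M : ℕ} (a : S ↪ Fin N) (b : S ↪ Fin M) (x : R.Hom K ((LC.Pr S n).prod Z)) :
    co R K Z n N (push R K Z a n x) = co R K Z n M (push R K Z b n x) := by
  rw [← co_castLE R K Z (le_max_left N M), ← co_castLE R K Z (le_max_right N M), push_push,
    push_push]
  exact co_same R K Z _ _ x

/-- the class of an element over a finite set -/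
def cl (S : Type) [Fintype S] (n : ℕ) : R.Hom K ((LC.Pr S n).prod Z) →+ Lim R K Z n :=
  (co R K Z n (Fintype.card S)).comp (push R K Z (Fintype.equivFin S).toEmbedding n)

theorem cl_eq {N : ℕ} (a : S ↪ Fin N) (x : R.Hom K ((LC.Pr S n).prod Z)) :
    cl R K Z S n x = co R K Z n N (push R K Z a n x) :=
  co_indep R K Z _ a x

theorem cl_ext (j : S ↪ T) (x : R.Hom K ((LC.Pr S n).prod Z)) :
    cl R K Z T n (push R K Z j n x) = cl R K Z S n x := by
  rw [cl_eq R K Z (Fintype.equivFin T).toEmbedding, push_push]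
  exact (cl_eq R K Z _ x).symm

theorem cl_surj (x : Lim R K Z n) (N : ℕ) : ∃ M ≥ N, ∃ y : R.Hom K ((LC.Pr (Fin M) n).prod Z),
    x = cl R K Z (Fin M) n y := by
  induction x using AddCommGroup.DirectLimit.induction_on with
  | ih i x =>
    refine ⟨max N i, le_max_left N i, push R K Z (Fin.castLEEmb (le_max_right N i)) n x, ?_⟩
    rw [cl_eq R K Z (Function.Embedding.refl _), push_refl]
    exact (co_castLE R K Z (le_max_right N i) x).symm

theorem cl_eq_zero (x : R.Hom K ((LC.Pr S n).prod Z)) (h : cl R K Z S n x = 0) :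
    ∃ m : ℕ, push R K Z (il S (Fin m)) n x = 0 := by
  classical
  obtain ⟨M, hM, h1⟩ := AddCommGroup.DirectLimit.of.zero_exact (G := G R K Z n) (f := f R K Z n)
    (Fintype.card S) (push R K Z (Fintype.equivFin S).toEmbedding n x) h
  have h2 : push R K Z ((Fintype.equivFin S).toEmbedding.trans (Fin.castLEEmb hM)) n x = 0 := by
    rw [← push_push]
    exact h1
  obtain ⟨a, ha⟩ : ∃ a : S ↪ Fin M, push R K Z a n x = 0 := ⟨_, h2⟩
  refine ⟨M, ?_⟩
  let c : Fin M ↪ S ⊕ Fin M :=
    ⟨fun t => if ht : ∃ s, a s = t then Sum.inl ht.choose else Sum.inr t, by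
      intro t t' htt
      by_cases ht : ∃ s, a s = t
      · by_cases ht' : ∃ s, a s = t'
        · simp only [ht, ht', dif_pos, Sum.inl.injEq] at htt
          rw [← ht.choose_spec, ← ht'.choose_spec, htt]
        · simp only [ht, ht', dif_pos, dif_neg, not_false_eq_true] at htt
          exact absurd htt Sum.inl_ne_inr
      · by_cases ht' : ∃ s, a s = t'
        · simp only [ht, ht', dif_pos, dif_neg, not_false_eq_true] at htt
          exact absurd htt Sum.inr_ne_inl
        · simp only [ht, ht', dif_neg, not_false_eq_true] at htt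
          exact Sum.inr_injective htt⟩
  have h3 : a.trans c = il S (Fin M) := by
    ext s : 1
    have hs : ∃ s', a s' = a s := ⟨s, rfl⟩
    change (if ht : ∃ s', a s' = a s then (Sum.inl ht.choose : S ⊕ Fin M) else Sum.inr (a s)) =
      Sum.inl s
    rw [dif_pos hs, a.injective hs.choose_spec]
  rw [← h3, ← push_push, ha, map_zero]

/-! ## Rank zero -/

open ComplexOrder in
theorem pr_zero (P : Pr S 0) : P.1 = 0 := by
  rw [← Matrix.trace_conjTranspose_mul_self_eq_zero_iff, P.2.1, P.2.2.1, P.2.2.2, Nat.cast_zero]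

/-- the composition `Pr S 0 → pt → Pr Empty 0 → Pr S 0` -/
theorem loop_id (k : LC.Pr Empty 0) (j : Empty ↪ S) :
    (Pr.extM j 0).comp ((PMap.ofPoint k).comp (PMap.toPoint (LC.Pr S 0))) =
      PMap.id (LC.Pr S 0) := by
  refine PMap.ext fun P => ?_
  change ((Pr.ext j k : LC.Pr S 0) : OnePoint (LC.Pr S 0)) = ((P : LC.Pr S 0) : OnePoint (LC.Pr S 0))
  refine congrArg (fun z : LC.Pr S 0 => (z : OnePoint (LC.Pr S 0))) (Subtype.ext ?_)
  rw [pr_zero, pr_zero P]

/-- the composition `pt → Pr Empty 0 → Pr S 0 → pt` -/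
theorem loop_id' (k : LC.Pr Empty 0) (j : Empty ↪ S) :
    (PMap.toPoint (LC.Pr S 0)).comp ((Pr.extM j 0).comp (PMap.ofPoint k)) =
      PMap.id LC.point := by
  refine PMap.ext fun P => ?_
  rfl

theorem comp_loop (k : LC.Pr Empty 0) (j : Empty ↪ S) (y : R.Hom K ((LC.Pr S 0).prod Z)) :
    R.comp (R.comp (R.comp y (R.tens (R.J (PMap.toPoint (LC.Pr S 0))) Z))
      (R.tens (R.J (PMap.ofPoint k)) Z)) (R.tens (R.J (Pr.extM j 0)) Z) = y := by
  rw [R.assoc, R.assoc, ← R.tens_comp, ← R.tens_comp, ← R.J_comp, ← R.J_comp,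
    PMap.comp_assoc, loop_id, Helper39.Stab.tens_id, R.comp_id]

theorem comp_loop' (k : LC.Pr Empty 0) (j : Empty ↪ S) (c : R.Hom K (LC.point.prod Z)) :
    R.comp (R.comp (R.comp c (R.tens (R.J (PMap.ofPoint k)) Z)) (R.tens (R.J (Pr.extM j 0)) Z))
      (R.tens (R.J (PMap.toPoint (LC.Pr S 0))) Z) = c := by
  rw [R.assoc, R.assoc, ← R.tens_comp, ← R.tens_comp, ← R.J_comp, ← R.J_comp,
    PMap.comp_assoc, loop_id', Helper39.Stab.tens_id, R.comp_id]

end Pool.Agent.Helper77.Stab
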